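import Pool.Agent.Work.MP_dd2eb3_hess.Core

/-!
# From controllable arrangements to cyclic column permutations
-/

set_option autoImplicit false

namespace Pool.Agent.Work.CycHess

open Finset Module Polynomial

universe u

section eig

variable {L : Type*} [Field L] {n : ℕ}

/-- All eigenspaces of `M` are at most lines. -/
def Lines (M : Matrix (Fin n) (Fin n) L) : Prop :=
  ∀ t : L, ∃ v : Fin n → L, ∀ w : Fin n → L, M.mulVec w = t • w → ∃ c : L, w = c • v

theorem lines_iff (M : Matrix (Fin n) (Fin n) L) :
    Lines M ↔ ∀ t : L, finrank L (Module.End.eigenspace (Matrix.toLin' M) t) ≤ 1 := by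
  constructor
  · intro h t
    obtain ⟨v, hv⟩ := h t
    have h1 : Module.End.eigenspace (Matrix.toLin' M) t ≤ Submodule.span L {v} := by
      intro w hw
      rw [Module.End.mem_eigenspace_iff, Matrix.toLin'_apply] at hw
      obtain ⟨c, hc⟩ := hv w hw
      rw [hc]
      exact Submodule.smul_mem _ _ (Submodule.mem_span_singleton_self v)
    refine (Submodule.finrank_mono h1).trans ((finrank_span_le_card ({v} : Set _)).trans ?_)
    simp
  · intro h t
    obtain ⟨v, hv⟩ := finrank_le_one_iff.1 (h t)
    refine ⟨v.1, fun w hw => ?_⟩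
    obtain ⟨c, hc⟩ := hv ⟨w, by
      rw [Module.End.mem_eigenspace_iff, Matrix.toLin'_apply]; exact hw⟩
    exact ⟨c, (congrArg Subtype.val hc).symm⟩

theorem Lines.transpose {M : Matrix (Fin n) (Fin n) L} (h : Lines M) : Lines M.transpose := by
  rw [lines_iff] at h ⊢
  intro t
  rw [Pool.Agent.Work.CycPerm.finrank_eigenspace_transpose]
  exact h t

theorem Lines.conj {M : Matrix (Fin n) (Fin n) L} (h : Lines M) (e : Equiv.Perm (Fin n)) :
    Lines (M.submatrix e e) := by
  intro t
  obtain ⟨v, hv⟩ := h t
  refine ⟨v ∘ e, fun w hw => ?_⟩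
  obtain ⟨c, hc⟩ := hv (w ∘ e.symm) (by
    funext i
    have := congrFun hw (e.symm i)
    simp only [Matrix.mulVec, dotProduct, Matrix.submatrix_apply, Equiv.apply_symm_apply,
      Pi.smul_apply] at this
    simp only [Matrix.mulVec, dotProduct, Function.comp_apply, Pi.smul_apply]
    rw [← this]
    apply Fintype.sum_equiv e.symm
    intro x
    simp)
  refine ⟨c, ?_⟩
  funext i
  have := congrFun hc (e i)
  simpa using this

theorem Lines.inv {M N : Matrix (Fin n) (Fin n) L} (h : Lines M) (hMN : M * N = 1) :
    Lines N := by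
  intro t
  obtain ⟨v, hv⟩ := h t⁻¹
  refine ⟨v, fun w hw => ?_⟩
  have h1 : w = t • M.mulVec w := by
    have h2 : M.mulVec (N.mulVec w) = w := by
      rw [Matrix.mulVec_mulVec, hMN, Matrix.one_mulVec]
    rw [hw, Matrix.mulVec_smul] at h2
    exact h2.symm
  by_cases ht : t = 0
  · refine ⟨0, ?_⟩
    rw [h1, ht, zero_smul, zero_smul]
  · apply hv
    conv_rhs => rw [h1]
    rw [smul_smul, inv_mul_cancel₀ ht, one_smul]

end eig

variable {F : Type u} [Field F] {n : ℕ}

/-- Some column permutation makes all eigenspaces over the algebraic closure at most lines. -/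
def Cy (A : Matrix (Fin n) (Fin n) F) : Prop :=
  ∃ σ : Equiv.Perm (Fin n),
    Lines ((A.submatrix id σ).map (algebraMap F (AlgebraicClosure F)))

theorem Cy.transpose {A : Matrix (Fin n) (Fin n) F} (h : Cy A) : Cy A.transpose := by
  obtain ⟨σ, hσ⟩ := h
  refine ⟨σ.symm, ?_⟩
  have h1 := hσ.transpose.conj σ.symm
  convert h1 using 1
  ext i j
  simp [Matrix.submatrix_apply]

theorem Cy.of_submatrix {A : Matrix (Fin n) (Fin n) F} (σ τ : Equiv.Perm (Fin n))
    (h : Cy (A.submatrix σ τ)) : Cy A := by
  obtain ⟨ρ, hρ⟩ := h
  refine ⟨(σ.symm.trans ρ).trans τ, ?_⟩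
  have h1 := hρ.conj σ.symm
  convert h1 using 1
  ext i j
  simp [Matrix.submatrix_apply]

theorem Cy.inv {A B : Matrix (Fin n) (Fin n) F} (h : Cy A) (hAB : A * B = 1) : Cy B := by
  obtain ⟨σ, hσ⟩ := h
  refine ⟨σ.symm, ?_⟩
  have h1 : (A.submatrix id σ) * (B.submatrix σ id) = 1 := by
    rw [Matrix.submatrix_mul_equiv, hAB]
    simp
  have h2 : (A.submatrix id σ).map (algebraMap F (AlgebraicClosure F)) *
      (B.submatrix σ id).map (algebraMap F (AlgebraicClosure F)) = 1 := by
    rw [← Matrix.map_mul, h1]
    simp
  have h3 := (hσ.inv h2).conj σ.symm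
  convert h3 using 1
  ext i j
  simp [Matrix.submatrix_apply]

/-- The cyclic conclusion. -/
theorem Cy.cyclic {A : Matrix (Fin n) (Fin n) F} (h : Cy A) :
    ∃ σ : Equiv.Perm (Fin n),
      minpoly F (A * σ.permMatrix F) = (A * σ.permMatrix F).charpoly := by
  obtain ⟨σ, hσ⟩ := h
  refine ⟨σ⁻¹, ?_⟩
  have h1 : A * (σ⁻¹).permMatrix F = A.submatrix id σ := by
    ext i j
    rw [Matrix.mul_apply]
    simp only [Equiv.Perm.permMatrix, PEquiv.toMatrix_apply, Equiv.toPEquiv_apply,
      Option.mem_def, Option.some.injEq, mul_ite, mul_one, mul_zero, Matrix.submatrix_apply, id]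
    rw [Finset.sum_eq_single (σ j)]
    · have h0 : σ⁻¹ (σ j) = j := σ.symm_apply_apply j
      exact if_pos h0
    · intro k _ hk
      rw [if_neg]
      intro h
      apply hk
      rw [← h]
      exact (σ.apply_symm_apply k).symm
    · intro h
      exact absurd (Finset.mem_univ _) h
  rw [h1]
  set M := A.submatrix id σ
  rw [lines_iff] at hσ
  have h2 : n ≤ 1 * (minpoly F M).natDegree :=
    MP_dd2eb3_helper90.le_mul_natDegree_minpoly (AlgebraicClosure F) M 1 hσ
  have hint : IsIntegral F M := Algebra.IsIntegral.isIntegral M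
  symm
  apply Polynomial.eq_of_monic_of_dvd_of_natDegree_le (minpoly.monic hint)
    (Matrix.charpoly_monic M) (Matrix.minpoly_dvd_charpoly M)
  rw [Matrix.charpoly_natDegree_eq_dim, Fintype.card_fin]
  omega

/-- A matrix in the pattern. -/
theorem cy_of_pattern {A : Matrix (Fin n) (Fin n) F} (hA : A.det ≠ 0)
    (h : ∀ i j : Fin n, j.1 + 1 < i.1 → j.1 + 3 < n → A i j = 0) : Cy A := by
  obtain _ | m := n
  · refine ⟨1, fun t => ⟨0, fun w _ => ⟨0, ?_⟩⟩⟩
    funext i
    exact i.elim0
  let L := AlgebraicClosure F
  have hAL : (A.map (algebraMap F L)).det ≠ 0 := by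
    have h2 : (A.map (algebraMap F L)).det = algebraMap F L A.det := by
      rw [RingHom.map_det]; rfl
    rw [h2]
    exact (map_ne_zero_iff _ (algebraMap F L).injective).mpr hA
  have hG := good_main (K := L) m ((A.map (algebraMap F L)).submatrix Fin.succ id) (by
    intro μ hμ
    have h3 : Matrix.vecMul (Fin.cons 0 μ) (A.map (algebraMap F L)) = 0 := by
      funext c
      have := hμ c
      simp only [Matrix.vecMul, dotProduct, Fin.sum_univ_succ, Fin.cons_zero, zero_mul, zero_add,
        Fin.cons_succ, Pi.zero_apply]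
      exact this
    have h4 := Matrix.eq_zero_of_vecMul_eq_zero hAL h3
    funext i
    have := congrFun h4 i.succ
    rw [Fin.cons_succ] at this
    exact this) (by
    intro i j h1 h2
    change algebraMap F L (A i.succ j) = 0
    rw [h i.succ j (by rw [Fin.val_succ]; omega) (by omega), map_zero])
  obtain ⟨e, he⟩ := hG
  refine ⟨e.symm, ?_⟩
  suffices H : Lines ((A.submatrix id e.symm).map (algebraMap F L)).transpose by
    have := H.transpose
    rwa [Matrix.transpose_transpose] at this
  rw [lines_iff]
  intro t
  have hinj : Function.Injective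
      ((LinearMap.proj (R := L) (φ := fun _ : Fin (m + 1) => L) 0).domRestrict
      (Module.End.eigenspace (Matrix.toLin'
        ((A.submatrix id e.symm).map (algebraMap F L)).transpose) t)) := by
    rw [← LinearMap.ker_eq_bot, eq_bot_iff]
    rintro ⟨ν, hν⟩ hν0
    have h0 : ν 0 = 0 := hν0
    rw [Module.End.mem_eigenspace_iff, Matrix.toLin'_apply] at hν
    have h1 : ∀ c, ∑ i, ν i * algebraMap F L (A i c) = t * ν (e c) := by
      intro c
      have := congrFun hν (e c)
      simp only [Matrix.mulVec, dotProduct, Matrix.transpose_apply, Matrix.map_apply,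
        Matrix.submatrix_apply, Equiv.symm_apply_apply, Pi.smul_apply, smul_eq_mul, id] at this
      rw [← this]
      apply Finset.sum_congr rfl
      intro i _
      ring
    have h2 : ν = 0 := by
      by_cases ht : t = 0
      · apply Matrix.eq_zero_of_vecMul_eq_zero hAL
        funext c
        have := h1 c
        rw [ht, zero_mul] at this
        simpa [Matrix.vecMul, dotProduct] using this
      · apply he t ht ν h0
        intro c
        have := h1 c
        rw [Fin.sum_univ_succ, h0, zero_mul, zero_add] at this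
        exact this
    rw [Submodule.mem_bot]
    exact Subtype.ext h2
  have := LinearMap.finrank_le_finrank_of_injective hinj
  simpa using this

/-- In an `(n + 1) × n` matrix with at most two nonzero entries in each column the rows and columns
can be ordered so that the matrix is upper Hessenberg. -/
theorem exists_order {R : Type*} [Zero R] : ∀ (n : ℕ) (A : Matrix (Fin (n + 1)) (Fin n) R)
    (_ : ∀ j, Nat.card {i // A i j ≠ 0} ≤ 2),
    ∃ (σ : Equiv.Perm (Fin (n + 1))) (τ : Equiv.Perm (Fin n)),
      ∀ i j, j.1 + 1 < i.1 → A (σ i) (τ j) = 0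
  | 0, _, _ => ⟨1, 1, fun _ j => j.elim0⟩
  | n + 1, A, hA => by
    classical
    -- a row with at most one nonzero entry
    have hcard : ∀ j, (Finset.univ.filter fun i => A i j ≠ 0).card ≤ 2 := by
      intro j
      have := hA j
      rw [Nat.card_eq_fintype_card, Fintype.card_subtype] at this
      exact this
    have hrow : ∃ r, (Finset.univ.filter fun j => A r j ≠ 0).card ≤ 1 := by
      by_contra hcon
      push Not at hcon
      have h1 : ∑ r : Fin (n + 2), (Finset.univ.filter fun j => A r j ≠ 0).card
          = ∑ j : Fin (n + 1), (Finset.univ.filter fun i => A i j ≠ 0).card := by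
        simp only [Finset.card_filter]
        exact Finset.sum_comm
      have h2 : ∑ r : Fin (n + 2), 2 ≤ ∑ r : Fin (n + 2), (Finset.univ.filter fun j => A r j ≠ 0).card :=
        Finset.sum_le_sum fun r _ => hcon r
      have h3 : ∑ j : Fin (n + 1), (Finset.univ.filter fun i => A i j ≠ 0).card
          ≤ ∑ j : Fin (n + 1), 2 := Finset.sum_le_sum fun j _ => hcard j
      simp only [Finset.sum_const, Finset.card_univ, Fintype.card_fin, smul_eq_mul] at h2 h3
      omega
    obtain ⟨r, hr⟩ := hrow
    obtain ⟨c, hc⟩ : ∃ c, ∀ j, j ≠ c → A r j = 0 := by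
      by_cases h : ∃ c, A r c ≠ 0
      · obtain ⟨c, hc⟩ := h
        refine ⟨c, fun j hj => ?_⟩
        by_contra hj0
        apply hj
        exact Finset.card_le_one.1 hr j (by simpa using hj0) c (by simpa using hc)
      · push Not at h
        exact ⟨0, fun j _ => h j⟩
    obtain ⟨σ, τ, h⟩ := exists_order n (A.submatrix r.succAbove c.succAbove) (by
      intro j
      refine le_trans ?_ (hA (c.succAbove j))
      apply Nat.card_le_card_of_injective
        (fun i : {i // A.submatrix r.succAbove c.succAbove i j ≠ 0} =>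
          (⟨r.succAbove i.1, i.2⟩ : {i // A i (c.succAbove j) ≠ 0}))
      intro x y hxy
      apply Subtype.ext
      exact Fin.succAbove_right_injective (congrArg Subtype.val hxy))
    refine ⟨(finSuccEquivLast.trans (Equiv.optionCongr σ)).trans (finSuccEquiv' r).symm,
      (finSuccEquivLast.trans (Equiv.optionCongr τ)).trans (finSuccEquiv' c).symm, ?_⟩
    intro i j hij
    refine Fin.lastCases (fun hij => ?_) (fun i hij => ?_) i hij
    · refine Fin.lastCases (fun hij => ?_) (fun j hij => ?_) j hij
      · exfalso
        simp only [Fin.val_last] at hij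
        omega
      · have h1 : ((finSuccEquivLast.trans (Equiv.optionCongr σ)).trans (finSuccEquiv' r).symm)
            (Fin.last (n + 1)) = r := by simp
        have h2 : ((finSuccEquivLast.trans (Equiv.optionCongr τ)).trans (finSuccEquiv' c).symm)
            j.castSucc = c.succAbove (τ j) := by simp
        rw [h1, h2]
        exact hc _ (Fin.succAbove_ne _ _)
    · refine Fin.lastCases (fun hij => ?_) (fun j hij => ?_) j hij
      · exfalso
        simp only [Fin.val_last, Fin.val_castSucc] at hij
        have := i.2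
        omega
      · have h1 : ((finSuccEquivLast.trans (Equiv.optionCongr σ)).trans (finSuccEquiv' r).symm)
            i.castSucc = r.succAbove (σ i) := by simp
        have h2 : ((finSuccEquivLast.trans (Equiv.optionCongr τ)).trans (finSuccEquiv' c).symm)
            j.castSucc = c.succAbove (τ j) := by simp
        rw [h1, h2]
        exact h i j hij

end Pool.Agent.Work.CycHess
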