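import Pool.Agent.Work.MP_dd2eb3_cyc.Gen
import Pool.Agent.Work.MP_dd2eb3_helper90.Minpoly

/-!
# Column permutations of Hessenberg patterns: controllable arrangements
-/

set_option autoImplicit false

namespace Pool.Agent.Work.CycHess

open Finset Module Polynomial

section rec

variable {K : Type*} [Field K]

/-- An `m × (m+1)` matrix has a controllable arrangement: for a bijection `e` of the columns with
the rows and one further point `0`, no nonzero row vector `ν` with `ν 0 = 0` satisfies
`ν T = t (ν ∘ e)` with `t` nonzero. -/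
def Good {m : ℕ} (T : Matrix (Fin m) (Fin (m + 1)) K) : Prop :=
  ∃ e : Equiv.Perm (Fin (m + 1)), ∀ t : K, t ≠ 0 → ∀ ν : Fin (m + 1) → K, ν 0 = 0 →
    (∀ c, ∑ i : Fin m, ν i.succ * T i c = t * ν (e c)) → ν = 0

theorem good_zero (T : Matrix (Fin 0) (Fin 1) K) : Good T := by
  refine ⟨1, fun t _ ν h _ => ?_⟩
  funext i
  have hi : i = 0 := by
    have := i.2
    apply Fin.ext
    change i.1 = 0
    omega
  rw [hi, h]
  rfl

/-- Peeling a column with nonzero entries in the first row only. -/
theorem good_peel {m : ℕ} (T : Matrix (Fin (m + 1)) (Fin (m + 2)) K)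
    (h : ∀ i : Fin m, T i.succ 0 = 0) (h' : Good (T.submatrix Fin.succ Fin.succ)) : Good T := by
  obtain ⟨e, he⟩ := h'
  by_cases h0 : T 0 0 = 0
  · -- the column vanishes
    refine ⟨Equiv.Perm.decomposeFin.symm (1, e), fun t ht ν hν hc => ?_⟩
    have h1 : ν 1 = 0 := by
      have := hc 0
      rw [Equiv.Perm.decomposeFin_symm_apply_zero, Fin.sum_univ_succ, h0, mul_zero, zero_add] at this
      rw [Finset.sum_eq_zero (fun i _ => by rw [h i, mul_zero])] at this
      exact (mul_eq_zero.1 this.symm).resolve_left ht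
    have h2 := he t ht (fun i => ν i.succ) h1 (fun c => by
      have h3 := hc c.succ
      rw [Fin.sum_univ_succ] at h3
      have h4 : ν (Fin.succ (0 : Fin (m + 1))) = 0 := h1
      rw [h4, zero_mul, zero_add, Equiv.Perm.decomposeFin_symm_apply_succ] at h3
      rw [show (∑ i : Fin m, ν i.succ.succ * T.submatrix Fin.succ Fin.succ i c)
        = ∑ i : Fin m, ν i.succ.succ * T i.succ c.succ from rfl, h3]
      congr 1
      by_cases hec : e c = 0
      · rw [hec]
        change ν (Equiv.swap 0 1 1) = _
        rw [Equiv.swap_apply_right, hν]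
        exact h4.symm
      · rw [Equiv.swap_apply_of_ne_of_ne (Fin.succ_ne_zero _)]
        intro h5
        apply hec
        exact Fin.succ_injective _ h5)
    funext i
    refine Fin.cases hν (fun j => ?_) i
    exact congrFun h2 j
  · refine ⟨Equiv.Perm.decomposeFin.symm (0, e), fun t ht ν hν hc => ?_⟩
    have h1 : ν 1 = 0 := by
      have := hc 0
      rw [Equiv.Perm.decomposeFin_symm_apply_zero, Fin.sum_univ_succ, hν, mul_zero] at this
      rw [Finset.sum_eq_zero (fun i _ => by rw [h i, mul_zero]), add_zero] at this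
      exact (mul_eq_zero.1 this).resolve_right h0
    have h2 := he t ht (fun i => ν i.succ) h1 (fun c => by
      have h3 := hc c.succ
      rw [Fin.sum_univ_succ] at h3
      have h4 : ν (Fin.succ (0 : Fin (m + 1))) = 0 := h1
      rw [h4, zero_mul, zero_add, Equiv.Perm.decomposeFin_symm_apply_succ, Equiv.swap_self,
        Equiv.refl_apply] at h3
      exact h3)
    funext i
    refine Fin.cases hν (fun j => ?_) i
    exact congrFun h2 j

/-- The Krylov criterion for two rows. -/
theorem good_two_of (T : Matrix (Fin 2) (Fin 3) K) (a b c : Fin 3)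
    (e : Equiv.Perm (Fin 3)) (ha : e a = 0) (hb : e b = 1) (hc : e c = 2)
    (h : T 0 a * (T 0 a * T 1 b - T 1 a * T 0 b) + T 1 a * (T 0 a * T 1 c - T 1 a * T 0 c) ≠ 0) :
    Good T := by
  refine ⟨e, fun t ht ν hν hT => ?_⟩
  have h1 := hT a
  have h2 := hT b
  have h3 := hT c
  rw [ha, hν, mul_zero, Fin.sum_univ_two] at h1
  rw [hb, Fin.sum_univ_two] at h2
  rw [hc, Fin.sum_univ_two] at h3
  change ν 1 * T 0 a + ν 2 * T 1 a = 0 at h1
  change ν 1 * T 0 b + ν 2 * T 1 b = t * ν 1 at h2
  change ν 1 * T 0 c + ν 2 * T 1 c = t * ν 2 at h3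
  have h4 : ν 1 * (T 0 a * (T 0 a * T 1 b - T 1 a * T 0 b)
      + T 1 a * (T 0 a * T 1 c - T 1 a * T 0 c)) = 0 := by
    linear_combination (T 0 a * T 1 b + T 1 a * T 1 c - t * T 1 a) * h1
      - (T 0 a * T 1 a) * h2 - (T 1 a * T 1 a) * h3
  have h5 : ν 2 * (T 0 a * (T 0 a * T 1 b - T 1 a * T 0 b)
      + T 1 a * (T 0 a * T 1 c - T 1 a * T 0 c)) = 0 := by
    linear_combination (t * T 0 a - T 0 a * T 0 b - T 1 a * T 0 c) * h1
      + (T 0 a * T 0 a) * h2 + (T 0 a * T 1 a) * h3
  funext i
  fin_cases i
  · exact hν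
  · exact (mul_eq_zero.1 h4).resolve_right h
  · exact (mul_eq_zero.1 h5).resolve_right h

/-- If all six arrangements of a `2 × 3` matrix are bad, then all its minors vanish. -/
theorem two_aux (pa qa pb qb pc qc : K)
    (h1 : pa * (pa * qb - qa * pb) + qa * (pa * qc - qa * pc) = 0)
    (h2 : pa * (pa * qc - qa * pc) + qa * (pa * qb - qa * pb) = 0)
    (h3 : pb * (pb * qa - qb * pa) + qb * (pb * qc - qb * pc) = 0)
    (h4 : pb * (pb * qc - qb * pc) + qb * (pb * qa - qb * pa) = 0)
    (h5 : pc * (pc * qa - qc * pa) + qc * (pc * qb - qc * pb) = 0)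
    (h6 : pc * (pc * qb - qc * pb) + qc * (pc * qa - qc * pa) = 0) :
    pa * qb - qa * pb = 0 := by
  by_contra hD
  have e1 : (pa - qa) * (pa + qa) = 0 := by
    have : (pa * qb - qa * pb) * ((pa - qa) * (pa + qa)) = 0 := by
      linear_combination pa * h1 - qa * h2
    exact (mul_eq_zero.1 this).resolve_left hD
  have e2 : (pb - qb) * (pb + qb) = 0 := by
    have : (pa * qb - qa * pb) * ((pb - qb) * (pb + qb)) = 0 := by
      linear_combination qb * h4 - pb * h3
    exact (mul_eq_zero.1 this).resolve_left hD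
  have key : ∀ ε : K, ε * ε = 1 → qa = ε * pa → qb = - ε * pb → False := by
    intro ε hε ha hb
    subst ha hb
    have hpa : pa ≠ 0 := by
      rintro rfl; apply hD; ring
    have hpb : pb ≠ 0 := by
      rintro rfl; apply hD; ring
    have f1 : pa * (pa * qc - ε * pa * pc)
        = - ε * (pa * (pa * (- ε * pb) - ε * pa * pb)) := by
      linear_combination ε * h1 - (pa * (pa * qc - ε * pa * pc)) * hε
    have f3 : pb * (pb * qc - - ε * pb * pc)
        = - ε * (pb * (pa * (- ε * pb) - ε * pa * pb)) := by
      linear_combination (-ε) * h3 - (pb * (pb * qc - - ε * pb * pc)) * hε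
    have f5 : (pc - qc) * (pc + qc) = 0 := by
      have : pa * (pa * (- ε * pb) - ε * pa * pb) * (ε * ((pc - qc) * (pc + qc))) = 0 := by
        linear_combination pa * (pc * h5 - qc * h6) + (pc ^ 2 - qc ^ 2) * f1
      rcases mul_eq_zero.1 this with h | h
      · exact absurd h (mul_ne_zero hpa hD)
      · rcases mul_eq_zero.1 h with h | h
        · exfalso
          rw [h, mul_zero] at hε
          exact zero_ne_one hε
        · exact h
    have hε' : (ε - 1) * (ε + 1) = 0 := by linear_combination hε
    have hDD : pa * (- ε * pb) - ε * pa * pb ≠ 0 := hD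
    have hεn : ε ≠ 0 := by
      intro h
      rw [h, mul_zero] at hε
      exact zero_ne_one hε
    have g : (qc - ε * pc) * (qc + ε * pc) = 0 := by
      linear_combination (-1 : K) * f5 - pc ^ 2 * hε
    rcases mul_eq_zero.1 g with h | h
    · have : - ε * (pa * (pa * (- ε * pb) - ε * pa * pb)) = 0 := by
        rw [← f1]
        linear_combination pa * pa * h
      rcases mul_eq_zero.1 this with h' | h'
      · exact hεn (neg_eq_zero.1 h')
      · exact mul_ne_zero hpa hDD h'
    · have : - ε * (pb * (pa * (- ε * pb) - ε * pa * pb)) = 0 := by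
        rw [← f3]
        linear_combination pb * pb * h
      rcases mul_eq_zero.1 this with h' | h'
      · exact hεn (neg_eq_zero.1 h')
      · exact mul_ne_zero hpb hDD h'
  rcases mul_eq_zero.1 e1 with ha | ha <;> rcases mul_eq_zero.1 e2 with hb | hb
  · apply hD
    linear_combination pa * (-1 : K) * hb + pb * ha
  · exact key 1 (by ring) (by linear_combination (-1 : K) * ha) (by linear_combination hb)
  · exact key (-1) (by ring) (by linear_combination ha) (by linear_combination (-1 : K) * hb)
  · apply hD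
    linear_combination pa * hb - pb * ha

/-- Every `2 × 3` matrix with independent rows has a controllable arrangement. -/
theorem good_two (T : Matrix (Fin 2) (Fin 3) K)
    (hT : ∀ μ : Fin 2 → K, (∀ c, ∑ i, μ i * T i c = 0) → μ = 0) : Good T := by
  by_contra hG
  have key : ∀ e : Equiv.Perm (Fin 3), T 0 (e 0) * (T 0 (e 0) * T 1 (e 1) - T 1 (e 0) * T 0 (e 1))
      + T 1 (e 0) * (T 0 (e 0) * T 1 (e 2) - T 1 (e 0) * T 0 (e 2)) = 0 := by
    intro e
    by_contra h
    exact hG (good_two_of T (e 0) (e 1) (e 2) e.symm (by simp) (by simp) (by simp) h)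
  have hD : ∀ a b : Fin 3, a ≠ b → T 0 a * T 1 b - T 1 a * T 0 b = 0 := by
    intro a b hab
    obtain ⟨e, he0, he1⟩ : ∃ e : Equiv.Perm (Fin 3), e 0 = a ∧ e 1 = b := by
      revert a b
      decide
    have k1 := key e
    have k2 := key ((Equiv.swap 1 2).trans e)
    have k3 := key ((Equiv.swap 0 1).trans e)
    have k4 := key ((Equiv.swap 1 2).trans ((Equiv.swap 0 1).trans e))
    have k5 := key ((Equiv.swap 0 1).trans ((Equiv.swap 1 2).trans e))
    have k6 := key ((Equiv.swap 0 2).trans e)
    simp only [Equiv.trans_apply, show (Equiv.swap (1 : Fin 3) 2) 0 = 0 from by decide,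
      show (Equiv.swap (1 : Fin 3) 2) 1 = 2 from by decide,
      show (Equiv.swap (1 : Fin 3) 2) 2 = 1 from by decide,
      show (Equiv.swap (0 : Fin 3) 1) 0 = 1 from by decide,
      show (Equiv.swap (0 : Fin 3) 1) 1 = 0 from by decide,
      show (Equiv.swap (0 : Fin 3) 1) 2 = 2 from by decide,
      show (Equiv.swap (0 : Fin 3) 2) 0 = 2 from by decide,
      show (Equiv.swap (0 : Fin 3) 2) 1 = 1 from by decide,
      show (Equiv.swap (0 : Fin 3) 2) 2 = 0 from by decide, he0, he1] at k1 k2 k3 k4 k5 k6
    exact two_aux _ _ _ _ _ _ k1 k2 k3 k4 k5 k6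
  have hD' : ∀ a b : Fin 3, T 0 a * T 1 b - T 1 a * T 0 b = 0 := by
    intro a b
    by_cases hab : a = b
    · subst hab; ring
    · exact hD a b hab
  have hz : ∀ a : Fin 3, T 0 a = 0 ∧ T 1 a = 0 := by
    intro a
    have h := hT ![T 1 a, - T 0 a] (fun c => by
      rw [Fin.sum_univ_two]
      change T 1 a * T 0 c + (- T 0 a) * T 1 c = 0
      linear_combination (-1 : K) * hD' a c)
    have h0 := congrFun h 0
    have h1 := congrFun h 1
    change T 1 a = 0 at h0
    change - T 0 a = 0 at h1
    exact ⟨neg_eq_zero.1 h1, h0⟩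
  have h := hT ![1, 0] (fun c => by
    rw [Fin.sum_univ_two, (hz c).1, (hz c).2]; ring)
  have h0 := congrFun h 0
  change (1 : K) = 0 at h0
  exact one_ne_zero h0

/-- Matrices `T` with `m` independent rows and `m + 1` columns whose columns, the last three
excepted, are upper triangular, have a controllable arrangement. -/
theorem good_main : ∀ (m : ℕ) (T : Matrix (Fin m) (Fin (m + 1)) K),
    (∀ μ : Fin m → K, (∀ c, ∑ i, μ i * T i c = 0) → μ = 0) →
    (∀ (i : Fin m) (j : Fin (m + 1)), j.1 < i.1 → j.1 + 2 < m → T i j = 0) → Good T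
  | 0, T, _, _ => good_zero T
  | 1, T, _, _ => good_peel T (fun i => i.elim0) (good_zero _)
  | 2, T, h, _ => good_two T h
  | m + 3, T, h, hz => by
    have hcol : ∀ i : Fin (m + 2), T i.succ 0 = 0 := by
      intro i
      apply hz
      · change 0 < i.1 + 1
        omega
      · change 0 + 2 < m + 3
        omega
    refine good_peel T hcol (good_main (m + 2) _ ?_ ?_)
    · intro μ hμ
      have h1 := h (Fin.cons 0 μ) (fun c => by
        rw [Fin.sum_univ_succ, Fin.cons_zero, zero_mul, zero_add]
        refine Fin.cases ?_ (fun c => ?_) c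
        · apply Finset.sum_eq_zero
          intro i _
          rw [hcol i, mul_zero]
        · have := hμ c
          simpa using this)
      funext i
      have := congrFun h1 i.succ
      rw [Fin.cons_succ] at this
      exact this
    · intro i j h1 h2
      apply hz
      · change j.1 + 1 < i.1 + 1
        omega
      · change j.1 + 1 + 2 < m + 3
        omega

end rec

end Pool.Agent.Work.CycHess
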